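import Pool.Agent.H94.CosBUCDefs

/-!
# The space `BUC + cos(t²) BUC`: common lemmas
-/

namespace Pool.Agent.H94.CosBUC

open MeasureTheory Set Filter Topology

variable {X : Type*} [NormedAddCommGroup X] [NormedSpace ℝ X]

/-! ### Basic facts on admissible intervals -/

theorem Admissible.add_mem {J : Set ℝ} (hJ : Admissible J) {t s : ℝ} (ht : t ∈ J) (hs : t ≤ s) :
    s ∈ J := by
  rcases hJ with ⟨α, rfl⟩ | ⟨α, rfl⟩ | rfl
  · exact le_trans ht hs
  · exact lt_of_lt_of_le ht hs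
  · trivial

/-- Far out, an admissible interval contains either a full neighbourhood on the left of a positive
point, or it is all of `ℝ`. -/
theorem Admissible.far {J : Set ℝ} (hJ : Admissible J) :
    ∃ R : ℝ, 0 < R ∧ ∀ t ∈ J, R ≤ |t| → (0 < t ∧ ∀ s, t - 2 ≤ s → s ∈ J) ∨ (t < 0 ∧ J = univ) := by
  rcases hJ with ⟨α, rfl⟩ | ⟨α, rfl⟩ | rfl
  · refine ⟨|α| + 3, by positivity, ?_⟩
    intro t ht hR
    left
    have h1 : α ≤ t := ht
    have h0 : 0 < t := by
      by_contra hneg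
      push Not at hneg
      rw [abs_of_nonpos hneg] at hR
      have := neg_abs_le α
      linarith
    rw [abs_of_pos h0] at hR
    refine ⟨h0, fun s hs => ?_⟩
    have := le_abs_self α
    change α ≤ s
    linarith
  · refine ⟨|α| + 3, by positivity, ?_⟩
    intro t ht hR
    left
    have h1 : α < t := ht
    have h0 : 0 < t := by
      by_contra hneg
      push Not at hneg
      rw [abs_of_nonpos hneg] at hR
      have := neg_abs_le α
      linarith
    rw [abs_of_pos h0] at hR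
    refine ⟨h0, fun s hs => ?_⟩
    have := le_abs_self α
    change α < s
    linarith
  · refine ⟨1, one_pos, ?_⟩
    intro t _ hR
    rcases lt_trichotomy t 0 with h | h | h
    · right; exact ⟨h, rfl⟩
    · rw [h] at hR; norm_num at hR
    · left; exact ⟨h, fun s _ => trivial⟩

/-- Vanishing at infinity along `J`. -/
def VanishOn (J : Set ℝ) (v : ℝ → X) : Prop :=
  ∀ ε > 0, ∃ R : ℝ, ∀ t ∈ J, R ≤ |t| → ‖v t‖ ≤ ε

/-- Near a far point `T` there is a point of `J` whose square is `θ` modulo `2π`. -/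
theorem exists_phase {J : Set ℝ} (hJ : Admissible J) (θ δ : ℝ) (hδ : 0 < δ) :
    ∃ R : ℝ, ∀ T ∈ J, R ≤ |T| → ∃ t ∈ J, |t - T| < δ ∧
      Real.cos (t ^ 2) = Real.cos θ ∧ Real.sin (t ^ 2) = Real.sin θ := by
  obtain ⟨R₀, hR₀, hfar⟩ := hJ.far
  refine ⟨max R₀ (2 * Real.pi / δ + 1), ?_⟩
  intro T hT hR
  have hR1 : R₀ ≤ |T| := le_trans (le_max_left _ _) hR
  have hR2 : 2 * Real.pi / δ + 1 ≤ |T| := le_trans (le_max_right _ _) hR
  have hpi := Real.pi_pos
  have hTpos : 0 < |T| := by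
    have : 0 < 2 * Real.pi / δ := by positivity
    linarith
  -- integer k with T² ≤ θ + 2πk < T² + 2π
  obtain ⟨k, hk1, hk2⟩ : ∃ k : ℤ, T ^ 2 ≤ θ + k * (2 * Real.pi) ∧
      θ + k * (2 * Real.pi) < T ^ 2 + 2 * Real.pi := by
    refine ⟨⌈(T ^ 2 - θ) / (2 * Real.pi)⌉, ?_, ?_⟩
    · have := Int.le_ceil ((T ^ 2 - θ) / (2 * Real.pi))
      rw [div_le_iff₀ (by positivity)] at this
      linarith
    · have := Int.ceil_lt_add_one ((T ^ 2 - θ) / (2 * Real.pi))
      have h2 : (⌈(T ^ 2 - θ) / (2 * Real.pi)⌉ : ℝ) * (2 * Real.pi) <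
          ((T ^ 2 - θ) / (2 * Real.pi) + 1) * (2 * Real.pi) :=
        mul_lt_mul_of_pos_right this (by positivity)
      have h3 : ((T ^ 2 - θ) / (2 * Real.pi) + 1) * (2 * Real.pi) = T ^ 2 - θ + 2 * Real.pi := by
        field_simp
      linarith
  set w : ℝ := θ + k * (2 * Real.pi) with hw
  have hw0 : 0 ≤ w := le_trans (sq_nonneg T) hk1
  have hsq : Real.sqrt w ^ 2 = w := Real.sq_sqrt hw0
  have hge : |T| ≤ Real.sqrt w := by
    apply Real.le_sqrt_of_sq_le
    rw [sq_abs]; exact hk1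
  have hclose : Real.sqrt w - |T| < δ := by
    have h1 : (Real.sqrt w - |T|) * (Real.sqrt w + |T|) < 2 * Real.pi := by
      have : (Real.sqrt w - |T|) * (Real.sqrt w + |T|) = w - T ^ 2 := by
        have h4 : |T| ^ 2 = T ^ 2 := sq_abs T
        nlinarith
      rw [this]; linarith
    have h2 : 2 * Real.pi < δ * |T| := by
      have : 2 * Real.pi / δ < |T| := by linarith
      rw [div_lt_iff₀ hδ] at this
      linarith
    by_contra hcon
    push Not at hcon
    have h3 : δ * |T| ≤ (Real.sqrt w - |T|) * (Real.sqrt w + |T|) := by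
      apply mul_le_mul hcon (by linarith) hTpos.le (by linarith)
    linarith
  have hcos : Real.cos w = Real.cos θ := by rw [hw]; exact Real.cos_add_int_mul_two_pi θ k
  have hsin : Real.sin w = Real.sin θ := by rw [hw]; exact Real.sin_add_int_mul_two_pi θ k
  rcases hfar T hT hR1 with ⟨hT0, hin⟩ | ⟨hT0, huniv⟩
  · rw [abs_of_pos hT0] at hge hclose
    refine ⟨Real.sqrt w, hin _ (by linarith), ?_, by rw [hsq]; exact hcos, by rw [hsq]; exact hsin⟩
    rw [abs_of_nonneg (by linarith)]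
    exact hclose
  · rw [abs_of_neg hT0] at hge hclose
    refine ⟨-Real.sqrt w, by rw [huniv]; trivial, ?_, by rw [neg_sq, hsq]; exact hcos,
      by rw [neg_sq, hsq]; exact hsin⟩
    rw [abs_of_nonpos (by linarith)]
    linarith

/-- Asymptotic independence: if `p + cos(t²) q + sin(t²) r = 0` on `J` with `p`, `r` uniformly
continuous then `r` vanishes at infinity. -/
theorem vanish_of_relation {J : Set ℝ} (hJ : Admissible J) {p q r : ℝ → X}
    (hp : UniformContinuousOn p J) (hr : UniformContinuousOn r J)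
    (h : ∀ t ∈ J, p t + Real.cos (t ^ 2) • q t + Real.sin (t ^ 2) • r t = 0) :
    VanishOn J r := by
  intro ε hε
  rw [Metric.uniformContinuousOn_iff] at hp hr
  obtain ⟨δ₁, hδ₁, hp'⟩ := hp (ε / 2) (by positivity)
  obtain ⟨δ₂, hδ₂, hr'⟩ := hr (ε / 2) (by positivity)
  set δ := min δ₁ δ₂ / 2 with hδ
  have hδpos : 0 < δ := by positivity
  obtain ⟨R₁, hR₁⟩ := exists_phase hJ (Real.pi / 2) δ hδpos
  obtain ⟨R₂, hR₂⟩ := exists_phase hJ (-(Real.pi / 2)) δ hδpos
  refine ⟨max R₁ R₂, ?_⟩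
  intro T hT hR
  obtain ⟨t₁, ht₁, hd₁, hc₁, hs₁⟩ := hR₁ T hT (le_trans (le_max_left _ _) hR)
  obtain ⟨t₂, ht₂, hd₂, hc₂, hs₂⟩ := hR₂ T hT (le_trans (le_max_right _ _) hR)
  have e1 := h t₁ ht₁
  have e2 := h t₂ ht₂
  rw [hc₁, hs₁, Real.cos_pi_div_two, Real.sin_pi_div_two] at e1
  rw [hc₂, hs₂, Real.cos_neg, Real.sin_neg, Real.cos_pi_div_two, Real.sin_pi_div_two] at e2
  simp only [zero_smul, add_zero, one_smul, neg_smul] at e1 e2
  have hle1 : δ ≤ δ₁ / 2 := by rw [hδ]; have := min_le_left δ₁ δ₂; linarith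
  have hle2 : δ ≤ δ₂ / 2 := by rw [hδ]; have := min_le_right δ₁ δ₂; linarith
  have b1 : dist (r T) (r t₁) < ε / 2 := hr' T hT t₁ ht₁ (by
    rw [dist_comm, Real.dist_eq]; linarith)
  have b2 : dist (r T) (r t₂) < ε / 2 := hr' T hT t₂ ht₂ (by
    rw [dist_comm, Real.dist_eq]; linarith)
  have b3 : dist (p t₂) (p t₁) < ε / 2 := hp' t₂ ht₂ t₁ ht₁ (by
    have : dist t₂ t₁ ≤ dist t₂ T + dist T t₁ := dist_triangle _ _ _
    rw [dist_comm T t₁, Real.dist_eq, Real.dist_eq t₂ T, Real.dist_eq t₁ T] at this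
    rw [Real.dist_eq]
    linarith)
  rw [dist_eq_norm] at b1 b2 b3
  have key : (2 : ℝ) • r T = (r T - r t₁) + (r T - r t₂) + (p t₂ - p t₁) := by
    have h1 : r t₁ = -p t₁ := by
      have := add_eq_zero_iff_eq_neg.mp e1
      rw [this]; simp
    have h2 : r t₂ = p t₂ := by
      have := add_eq_zero_iff_eq_neg.mp e2
      rw [this]; simp
    rw [h1, h2, two_smul]
    abel
  have h3 : ‖(2 : ℝ) • r T‖ = 2 * ‖r T‖ := by rw [norm_smul]; norm_num
  have h4 : ‖(r T - r t₁) + (r T - r t₂) + (p t₂ - p t₁)‖ ≤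
      ‖r T - r t₁‖ + ‖r T - r t₂‖ + ‖p t₂ - p t₁‖ := norm_add₃_le
  rw [← key, h3] at h4
  linarith

/-! ### BUC is closed under the operations we need -/

omit [NormedSpace ℝ X] in
theorem BUC_add {J : Set ℝ} {u v : ℝ → X} (hu : u ∈ BUC (X := X) J) (hv : v ∈ BUC (X := X) J) :
    (fun t => u t + v t) ∈ BUC (X := X) J := by
  obtain ⟨⟨C, hC⟩, hu2⟩ := hu
  obtain ⟨⟨D, hD⟩, hv2⟩ := hv
  exact ⟨⟨C + D, fun t ht => (norm_add_le _ _).trans (add_le_add (hC t ht) (hD t ht))⟩,
    uniformContinuousOn_iff_restrict.2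
      ((uniformContinuousOn_iff_restrict.1 hu2).add (uniformContinuousOn_iff_restrict.1 hv2))⟩

omit [NormedSpace ℝ X] in
theorem BUC_sub {J : Set ℝ} {u v : ℝ → X} (hu : u ∈ BUC (X := X) J) (hv : v ∈ BUC (X := X) J) :
    (fun t => u t - v t) ∈ BUC (X := X) J := by
  obtain ⟨⟨C, hC⟩, hu2⟩ := hu
  obtain ⟨⟨D, hD⟩, hv2⟩ := hv
  exact ⟨⟨C + D, fun t ht => (norm_sub_le _ _).trans (add_le_add (hC t ht) (hD t ht))⟩,
    uniformContinuousOn_iff_restrict.2
      ((uniformContinuousOn_iff_restrict.1 hu2).sub (uniformContinuousOn_iff_restrict.1 hv2))⟩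

omit [NormedSpace ℝ X] in
theorem BUC_shift {J : Set ℝ} (hJ : Admissible J) {u : ℝ → X} (hu : u ∈ BUC (X := X) J) {b : ℝ}
    (hb : 0 < b) : (fun t => u (t + b)) ∈ BUC (X := X) J := by
  obtain ⟨⟨C, hC⟩, hu2⟩ := hu
  refine ⟨⟨C, fun t ht => hC _ (hJ.add_mem ht (by linarith))⟩, ?_⟩
  rw [Metric.uniformContinuousOn_iff] at hu2 ⊢
  intro ε hε
  obtain ⟨δ, hδ, h⟩ := hu2 ε hε
  refine ⟨δ, hδ, fun s hs t ht hst => h _ (hJ.add_mem hs (by linarith)) _
    (hJ.add_mem ht (by linarith)) ?_⟩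
  rw [Real.dist_eq] at hst ⊢
  rw [show s + b - (t + b) = s - t by ring]
  exact hst

theorem BUC_smul {J : Set ℝ} {u : ℝ → X} (hu : u ∈ BUC (X := X) J) {g : ℝ → ℝ}
    (hg : ∀ t, |g t| ≤ 1) {K : ℝ} (hK : ∀ s t, |g s - g t| ≤ K * |s - t|) :
    (fun t => g t • u t) ∈ BUC (X := X) J := by
  obtain ⟨⟨C, hC⟩, hu2⟩ := hu
  refine ⟨⟨C, fun t ht => ?_⟩, ?_⟩
  · rw [norm_smul]
    calc ‖g t‖ * ‖u t‖ ≤ 1 * ‖u t‖ := by
          apply mul_le_mul_of_nonneg_right (hg t) (norm_nonneg _)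
      _ ≤ C := by rw [one_mul]; exact hC t ht
  · rw [Metric.uniformContinuousOn_iff] at hu2 ⊢
    intro ε hε
    obtain ⟨δ, hδ, h⟩ := hu2 (ε / 2) (by positivity)
    have hK1 : 0 < (|K| + 1) * (|C| + 1) := by positivity
    refine ⟨min δ (ε / 2 / ((|K| + 1) * (|C| + 1))), by positivity, fun s hs t ht hst => ?_⟩
    have h1 : dist s t < δ := lt_of_lt_of_le hst (min_le_left _ _)
    have h2 : dist s t < ε / 2 / ((|K| + 1) * (|C| + 1)) := lt_of_lt_of_le hst (min_le_right _ _)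
    have h3 := h s hs t ht h1
    rw [dist_eq_norm] at h3 ⊢
    rw [Real.dist_eq, lt_div_iff₀ hK1] at h2
    have h4 : g s • u s - g t • u t = g s • (u s - u t) + (g s - g t) • u t := by
      rw [smul_sub, sub_smul]; abel
    rw [h4]
    refine lt_of_le_of_lt (norm_add_le _ _) ?_
    rw [norm_smul, norm_smul]
    have h5 : ‖g s‖ * ‖u s - u t‖ ≤ ‖u s - u t‖ := by
      calc ‖g s‖ * ‖u s - u t‖ ≤ 1 * ‖u s - u t‖ := by
            apply mul_le_mul_of_nonneg_right (hg s) (norm_nonneg _)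
        _ = _ := one_mul _
    have h6 : ‖g s - g t‖ * ‖u t‖ ≤ |s - t| * ((|K| + 1) * (|C| + 1)) := by
      have a1 : ‖g s - g t‖ ≤ (|K| + 1) * |s - t| := by
        refine (hK s t).trans ?_
        apply mul_le_mul_of_nonneg_right _ (abs_nonneg _)
        have := le_abs_self K
        linarith
      have a2 : ‖u t‖ ≤ |C| + 1 := by
        have := le_abs_self C
        have := hC t ht
        linarith
      calc ‖g s - g t‖ * ‖u t‖ ≤ ((|K| + 1) * |s - t|) * (|C| + 1) :=
            mul_le_mul a1 a2 (norm_nonneg _) (by positivity)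
        _ = _ := by ring
    linarith

/-- A `BUC` function vanishing at infinity, multiplied by `cos(t²)`, is `BUC`. -/
theorem BUC_cos_smul {J : Set ℝ} {v : ℝ → X} (hv : v ∈ BUC (X := X) J) (h0 : VanishOn J v) :
    (fun t => Real.cos (t ^ 2) • v t) ∈ BUC (X := X) J := by
  obtain ⟨⟨C, hC⟩, hv2⟩ := hv
  refine ⟨⟨C, fun t ht => ?_⟩, ?_⟩
  · rw [norm_smul]
    calc ‖Real.cos (t ^ 2)‖ * ‖v t‖ ≤ 1 * ‖v t‖ := by
          apply mul_le_mul_of_nonneg_right (Real.abs_cos_le_one _) (norm_nonneg _)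
      _ ≤ C := by rw [one_mul]; exact hC t ht
  · rw [Metric.uniformContinuousOn_iff] at hv2 ⊢
    intro ε hε
    obtain ⟨R, hR⟩ := h0 (ε / 4) (by positivity)
    obtain ⟨δ, hδ, h⟩ := hv2 (ε / 2) (by positivity)
    set K : ℝ := 2 * (|R| + 2) * (|C| + 1) with hK
    have hKpos : 0 < K := by positivity
    refine ⟨min (min δ 1) (ε / 2 / K), by positivity, fun s hs t ht hst => ?_⟩
    have h1 : dist s t < δ :=
      lt_of_lt_of_le hst ((min_le_left _ _).trans (min_le_left _ _))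
    have h2 : dist s t < 1 := lt_of_lt_of_le hst ((min_le_left _ _).trans (min_le_right _ _))
    have h3 : dist s t < ε / 2 / K := lt_of_lt_of_le hst (min_le_right _ _)
    rw [Real.dist_eq] at h2
    rw [dist_eq_norm]
    by_cases hbig : R ≤ |s| ∧ R ≤ |t|
    · have b1 : ‖Real.cos (s ^ 2) • v s‖ ≤ ε / 4 := by
        rw [norm_smul]
        calc ‖Real.cos (s ^ 2)‖ * ‖v s‖ ≤ 1 * ‖v s‖ := by
              apply mul_le_mul_of_nonneg_right (Real.abs_cos_le_one _) (norm_nonneg _)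
          _ ≤ ε / 4 := by rw [one_mul]; exact hR s hs hbig.1
      have b2 : ‖Real.cos (t ^ 2) • v t‖ ≤ ε / 4 := by
        rw [norm_smul]
        calc ‖Real.cos (t ^ 2)‖ * ‖v t‖ ≤ 1 * ‖v t‖ := by
              apply mul_le_mul_of_nonneg_right (Real.abs_cos_le_one _) (norm_nonneg _)
          _ ≤ ε / 4 := by rw [one_mul]; exact hR t ht hbig.2
      have := norm_sub_le (Real.cos (s ^ 2) • v s) (Real.cos (t ^ 2) • v t)
      linarith
    · have hboth : |s| ≤ |R| + 1 ∧ |t| ≤ |R| + 1 := by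
        have hRle := le_abs_self R
        have t1 : |s| ≤ |t| + |s - t| := by
          have := abs_add_le t (s - t)
          rwa [show t + (s - t) = s by ring] at this
        have t2 : |t| ≤ |s| + |s - t| := by
          have := abs_add_le s (t - s)
          rw [show s + (t - s) = t by ring, abs_sub_comm t s] at this
          exact this
        rw [not_and_or] at hbig
        rcases hbig with hb | hb
        · push Not at hb
          constructor <;> linarith
        · push Not at hb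
          constructor <;> linarith
      have h4 : Real.cos (s ^ 2) • v s - Real.cos (t ^ 2) • v t =
          Real.cos (s ^ 2) • (v s - v t) + (Real.cos (s ^ 2) - Real.cos (t ^ 2)) • v t := by
        rw [smul_sub, sub_smul]; abel
      rw [h4]
      refine lt_of_le_of_lt (norm_add_le _ _) ?_
      rw [norm_smul, norm_smul]
      have h5 : ‖Real.cos (s ^ 2)‖ * ‖v s - v t‖ < ε / 2 := by
        have h6 := h s hs t ht h1
        rw [dist_eq_norm] at h6
        calc ‖Real.cos (s ^ 2)‖ * ‖v s - v t‖ ≤ 1 * ‖v s - v t‖ := by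
              apply mul_le_mul_of_nonneg_right (Real.abs_cos_le_one _) (norm_nonneg _)
          _ < ε / 2 := by rw [one_mul]; exact h6
      have h7 : ‖Real.cos (s ^ 2) - Real.cos (t ^ 2)‖ ≤ |s - t| * (2 * (|R| + 2)) := by
        have c1 : |Real.cos (s ^ 2) - Real.cos (t ^ 2)| ≤ |s ^ 2 - t ^ 2| := by
          have := Real.abs_cos_sub_cos_le (s ^ 2) (t ^ 2)
          exact this
        have c2 : |s ^ 2 - t ^ 2| = |s - t| * |s + t| := by
          rw [← abs_mul]; congr 1; ring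
        have c3 : |s + t| ≤ 2 * (|R| + 2) := by
          have := abs_add_le s t
          linarith [hboth.1, hboth.2]
        rw [Real.norm_eq_abs]
        calc |Real.cos (s ^ 2) - Real.cos (t ^ 2)| ≤ |s - t| * |s + t| := by rw [← c2]; exact c1
          _ ≤ _ := mul_le_mul_of_nonneg_left c3 (abs_nonneg _)
      have h8 : ‖v t‖ ≤ |C| + 1 := by
        have := le_abs_self C
        have := hC t ht
        linarith
      have h9 : ‖Real.cos (s ^ 2) - Real.cos (t ^ 2)‖ * ‖v t‖ ≤ |s - t| * K := by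
        calc ‖Real.cos (s ^ 2) - Real.cos (t ^ 2)‖ * ‖v t‖ ≤
              (|s - t| * (2 * (|R| + 2))) * (|C| + 1) :=
            mul_le_mul h7 h8 (norm_nonneg _) (by positivity)
          _ = _ := by rw [hK]; ring
      rw [Real.dist_eq, lt_div_iff₀ hKpos] at h3
      linarith

omit [NormedSpace ℝ X] in
theorem BUC_congr {J : Set ℝ} {u v : ℝ → X} (hu : u ∈ BUC (X := X) J)
    (h : ∀ t ∈ J, u t = v t) : v ∈ BUC (X := X) J := by
  obtain ⟨⟨C, hC⟩, hu2⟩ := hu
  refine ⟨⟨C, fun t ht => by rw [← h t ht]; exact hC t ht⟩, ?_⟩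
  exact hu2.congr h

/-- Elementary trigonometric inequality behind the choice `b = 1, 2`. -/
theorem sin_two_le_aux (θ : ℝ) :
    Real.sin 2 ≤ 4 * |Real.sin θ| + |Real.sin (2 * θ - 2)| := by
  rw [Real.sin_sub, Real.sin_two_mul, Real.cos_two_mul]
  have hs2 : 0 ≤ Real.sin 2 :=
    Real.sin_nonneg_of_nonneg_of_le_pi (by norm_num) (by linarith [Real.pi_gt_three])
  have hs2' : Real.sin 2 ≤ 1 := Real.sin_le_one 2
  have hid : Real.sin 2 = 2 * Real.sin θ * Real.cos θ * Real.cos 2 +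
      2 * Real.sin θ ^ 2 * Real.sin 2 -
      (2 * Real.sin θ * Real.cos θ * Real.cos 2 - (2 * Real.cos θ ^ 2 - 1) * Real.sin 2) := by
    have := Real.sin_sq_add_cos_sq θ
    linear_combination (-2 * Real.sin 2) * this
  have a1 : 2 * Real.sin θ * Real.cos θ * Real.cos 2 ≤ 2 * |Real.sin θ| := by
    have h2 : |Real.sin θ * (Real.cos θ * Real.cos 2)| ≤ |Real.sin θ| * 1 := by
      rw [abs_mul]
      apply mul_le_mul_of_nonneg_left _ (abs_nonneg _)
      rw [abs_mul]
      exact mul_le_one₀ (Real.abs_cos_le_one _) (abs_nonneg _) (Real.abs_cos_le_one _)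
    have h3 := le_abs_self (Real.sin θ * (Real.cos θ * Real.cos 2))
    linarith
  have a2 : 2 * Real.sin θ ^ 2 * Real.sin 2 ≤ 2 * |Real.sin θ| := by
    have h2 : Real.sin θ ^ 2 ≤ |Real.sin θ| := by
      rw [← sq_abs]
      have := Real.abs_sin_le_one θ
      nlinarith [abs_nonneg (Real.sin θ)]
    nlinarith [sq_nonneg (Real.sin θ)]
  have a3 := neg_abs_le (2 * Real.sin θ * Real.cos θ * Real.cos 2 -
    (2 * Real.cos θ ^ 2 - 1) * Real.sin 2)
  linarith

theorem sin_two_le (s : ℝ) :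
    Real.sin 2 ≤ 4 * |Real.sin (2 * s - 1)| + |Real.sin (4 * s - 4)| := by
  have h := sin_two_le_aux (2 * s - 1)
  rwa [show 2 * (2 * s - 1) - 2 = 4 * s - 4 by ring] at h

/-- **Key reduction.** If all differences of `f` lie in `A_cos`, they lie in `BUC`. -/
theorem diff_mem_BUC {J : Set ℝ} (hJ : Admissible J) {f : ℝ → X}
    (hf : ∀ a > 0, diffOp a f ∈ Acos (X := X) J) : ∀ a > 0, diffOp a f ∈ BUC (X := X) J := by
  choose! u hu v hv huv using hf
  have key : ∀ a > 0, ∀ b > 0,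
      VanishOn J (fun t => -(Real.sin (2 * b * t + b ^ 2) • v a (t + b))) := by
    intro a ha b hb
    have hcosb : ∀ s t : ℝ, |Real.cos (2 * b * s + b ^ 2) - Real.cos (2 * b * t + b ^ 2)| ≤
        (2 * b) * |s - t| := by
      intro s t
      refine (Real.abs_cos_sub_cos_le _ _).trans ?_
      rw [show 2 * b * s + b ^ 2 - (2 * b * t + b ^ 2) = (2 * b) * (s - t) by ring, abs_mul,
        abs_of_pos (by positivity : 0 < 2 * b)]
    have hsinb : ∀ s t : ℝ, |Real.sin (2 * b * s + b ^ 2) - Real.sin (2 * b * t + b ^ 2)| ≤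
        (2 * b) * |s - t| := by
      intro s t
      refine (Real.abs_sin_sub_sin_le _ _).trans ?_
      rw [show 2 * b * s + b ^ 2 - (2 * b * t + b ^ 2) = (2 * b) * (s - t) by ring, abs_mul,
        abs_of_pos (by positivity : 0 < 2 * b)]
    have hp : (fun t => (u a (t + b) + u b t) - u (a + b) t) ∈ BUC (X := X) J :=
      BUC_sub (BUC_add (BUC_shift hJ (hu a ha) hb) (hu b hb)) (hu (a + b) (by positivity))
    have hr0 : (fun t => Real.sin (2 * b * t + b ^ 2) • v a (t + b)) ∈ BUC (X := X) J :=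
      BUC_smul (BUC_shift hJ (hv a ha) hb) (fun t => Real.abs_sin_le_one _) hsinb
    have hr : (fun t => -(Real.sin (2 * b * t + b ^ 2) • v a (t + b))) ∈ BUC (X := X) J := by
      have hz : (fun _ : ℝ => (0 : X)) ∈ BUC (X := X) J :=
        ⟨⟨0, fun t _ => by simp⟩, uniformContinuous_const.uniformContinuousOn⟩
      exact BUC_congr (BUC_sub hz hr0) (fun t _ => by simp)
    refine vanish_of_relation hJ (q := fun t => Real.cos (2 * b * t + b ^ 2) • v a (t + b) +
      v b t - v (a + b) t) hp.2 hr.2 ?_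
    intro t ht
    have htb : t + b ∈ J := hJ.add_mem ht (by linarith)
    have e1 := huv a ha (t + b) htb
    have e2 := huv b hb t ht
    have e3 := huv (a + b) (by positivity) t ht
    have e4 : diffOp (a + b) f t = diffOp a f (t + b) + diffOp b f t := by
      unfold diffOp
      rw [show t + b + a = t + (a + b) by ring]
      abel
    rw [e1, e2, e3] at e4
    have e5 : Real.cos ((t + b) ^ 2) = Real.cos (t ^ 2) * Real.cos (2 * b * t + b ^ 2) -
        Real.sin (t ^ 2) * Real.sin (2 * b * t + b ^ 2) := by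
      rw [← Real.cos_add]; congr 1; ring
    rw [e5] at e4
    have e6 : u a (t + b) + u b t - u (a + b) t +
        Real.cos (t ^ 2) • (Real.cos (2 * b * t + b ^ 2) • v a (t + b) + v b t - v (a + b) t) +
        Real.sin (t ^ 2) • -(Real.sin (2 * b * t + b ^ 2) • v a (t + b)) =
        (u a (t + b) + (Real.cos (t ^ 2) * Real.cos (2 * b * t + b ^ 2) -
        Real.sin (t ^ 2) * Real.sin (2 * b * t + b ^ 2)) • v a (t + b) +
        (u b t + Real.cos (t ^ 2) • v b t)) -
        (u (a + b) t + Real.cos (t ^ 2) • v (a + b) t) := by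
      simp only [smul_sub, smul_add, sub_smul, mul_smul, smul_neg]
      abel
    change u a (t + b) + u b t - u (a + b) t +
        Real.cos (t ^ 2) • (Real.cos (2 * b * t + b ^ 2) • v a (t + b) + v b t - v (a + b) t) +
        Real.sin (t ^ 2) • -(Real.sin (2 * b * t + b ^ 2) • v a (t + b)) = 0
    rw [e6, ← e4, sub_self]
  have hvan : ∀ a > 0, VanishOn J (v a) := by
    intro a ha ε hε
    obtain ⟨R₀, hR₀, hfar⟩ := hJ.far
    have hs2 : 0 < Real.sin 2 :=
      Real.sin_pos_of_pos_of_lt_pi (by norm_num) (by linarith [Real.pi_gt_three])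
    obtain ⟨R₁, hR₁⟩ := key a ha 1 one_pos (ε * Real.sin 2 / 5) (by positivity)
    obtain ⟨R₂, hR₂⟩ := key a ha 2 two_pos (ε * Real.sin 2 / 5) (by positivity)
    refine ⟨max R₀ (max (R₁ + 2) (R₂ + 2)), ?_⟩
    intro s hs hR
    have hb0 : R₀ ≤ |s| := le_trans (le_max_left _ _) hR
    have hb1 : R₁ + 2 ≤ |s| := le_trans ((le_max_left _ _).trans (le_max_right _ _)) hR
    have hb2 : R₂ + 2 ≤ |s| := le_trans ((le_max_right _ _).trans (le_max_right _ _)) hR
    have hin : s - 1 ∈ J ∧ s - 2 ∈ J := by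
      rcases hfar s hs hb0 with ⟨_, h⟩ | ⟨_, h⟩
      · exact ⟨h _ (by linarith), h _ (by linarith)⟩
      · rw [h]; exact ⟨trivial, trivial⟩
    have habs : |s| ≤ |s - 1| + 1 ∧ |s| ≤ |s - 2| + 2 := by
      constructor
      · have := abs_add_le (s - 1) 1
        rw [show s - 1 + 1 = s by ring] at this
        simpa using this
      · have := abs_add_le (s - 2) 2
        rw [show s - 2 + 2 = s by ring] at this
        simpa using this
    have c1 := hR₁ (s - 1) hin.1 (by linarith [habs.1])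
    have c2 := hR₂ (s - 2) hin.2 (by linarith [habs.2])
    simp only [norm_neg, norm_smul, Real.norm_eq_abs] at c1 c2
    rw [show s - 1 + 1 = s by ring, show 2 * 1 * (s - 1) + 1 ^ 2 = 2 * s - 1 by ring] at c1
    rw [show s - 2 + 2 = s by ring, show 2 * 2 * (s - 2) + 2 ^ 2 = 4 * s - 4 by ring] at c2
    have c3 := sin_two_le s
    have c4 : Real.sin 2 * ‖v a s‖ ≤
        (4 * |Real.sin (2 * s - 1)| + |Real.sin (4 * s - 4)|) * ‖v a s‖ :=
      mul_le_mul_of_nonneg_right c3 (norm_nonneg _)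
    have c5 : Real.sin 2 * ‖v a s‖ ≤ Real.sin 2 * ε := by nlinarith
    exact le_of_mul_le_mul_left c5 hs2
  intro a ha
  have h1 := BUC_cos_smul (hv a ha) (hvan a ha)
  exact BUC_congr (BUC_add (hu a ha) h1) (fun t ht => (huv a ha t ht).symm)

end Pool.Agent.H94.CosBUC
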