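import Pool.Agent.H94.CosBUC

/-!
# `BUC` satisfies `(Δ)` and `(L_b)`; conclusion for `BUC + cos(t²) BUC`
-/

namespace Pool.Agent.H94.CosBUC

open MeasureTheory Set Filter Topology

variable {X : Type*} [NormedAddCommGroup X] [NormedSpace ℝ X]

omit [NormedSpace ℝ X] in
theorem aesm_shift {J : Set ℝ} (hJ : Admissible J) {f : ℝ → X} (hf : LocInt J f) {t : ℝ}
    (ht : t ∈ J) {L : ℝ} (hL : 0 < L) :
    AEStronglyMeasurable (fun s => f (t + s)) (volume.restrict (Ioo 0 L)) := by
  have h1 : IntegrableOn f (Icc t (t + L)) volume :=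
    hf t (t + L) (by linarith) (fun s hs => hJ.add_mem ht hs.1)
  have h2 : AEStronglyMeasurable f (volume.restrict (Ioo t (t + L))) :=
    (h1.mono_set Ioo_subset_Icc_self).aestronglyMeasurable
  have h3 : MeasurePreserving (fun s : ℝ => t + s)
      (volume.restrict ((fun s : ℝ => t + s) ⁻¹' Ioo t (t + L)))
      (volume.restrict (Ioo t (t + L))) :=
    (measurePreserving_add_left volume t).restrict_preimage measurableSet_Ioo
  have h4 : (fun s : ℝ => t + s) ⁻¹' Ioo t (t + L) = Ioo 0 L := by
    ext s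
    simp
  rw [h4] at h3
  exact h2.comp_measurePreserving h3

theorem small_bad {J : Set ℝ} (hJ : Admissible J) {f : ℝ → X} (hf : LocInt J f)
    (hd : ∀ a > 0, ∃ C : ℝ, ∀ t ∈ J, ‖diffOp a f t‖ ≤ C) (t : ℕ → ℝ) (ht : ∀ n, t n ∈ J)
    {L : ℝ} (hL : 0 < L) {ε : ENNReal} (hε : 0 < ε) :
    ∃ M : ℕ, volume {x | x ∈ Ioo 0 L ∧ ∃ n, (M : ℝ) < ‖f (t n + x) - f (t n)‖} < ε := by
  set μ : Measure ℝ := volume.restrict (Ioo 0 L) with hμ
  set B : ℕ → Set ℝ := fun M => {x | x ∈ Ioo 0 L ∧ ∃ n, (M : ℝ) < ‖f (t n + x) - f (t n)‖}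
    with hB
  have hnull : ∀ M, NullMeasurableSet (B M) μ := by
    intro M
    have h1 : B M = Ioo 0 L ∩ ⋃ n, {x | (M : ℝ) < ‖f (t n + x) - f (t n)‖} := by
      ext x
      simp [hB]
    rw [h1]
    refine measurableSet_Ioo.nullMeasurableSet.inter (NullMeasurableSet.iUnion fun n => ?_)
    refine nullMeasurableSet_lt aemeasurable_const ?_
    exact ((aesm_shift hJ hf (ht n) hL).sub aestronglyMeasurable_const).norm.aemeasurable
  have hanti : Antitone B := by
    intro M N hMN x hx
    obtain ⟨hx1, n, hn⟩ := hx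
    refine ⟨hx1, n, lt_of_le_of_lt ?_ hn⟩
    exact_mod_cast hMN
  have hempty : ⋂ M, B M = ∅ := by
    ext x
    simp only [mem_iInter, mem_empty_iff_false, iff_false, not_forall]
    by_cases hx : x ∈ Ioo 0 L
    · obtain ⟨C, hC⟩ := hd x hx.1
      obtain ⟨M, hM⟩ := exists_nat_gt C
      refine ⟨M, ?_⟩
      rintro ⟨_, n, hn⟩
      have := hC (t n) (ht n)
      unfold diffOp at this
      linarith
    · exact ⟨0, fun h => hx h.1⟩
  have htend := tendsto_measure_iInter_atTop (μ := μ) hnull hanti
    ⟨0, by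
      have : μ (B 0) ≤ μ univ := measure_mono (subset_univ _)
      refine ne_of_lt (lt_of_le_of_lt this ?_)
      rw [hμ, Measure.restrict_apply_univ, Real.volume_Ioo]
      exact ENNReal.ofReal_lt_top⟩
  rw [hempty, measure_empty] at htend
  have hev := (tendsto_order.1 htend).2 ε hε
  obtain ⟨M, hM⟩ := hev.exists
  refine ⟨M, ?_⟩
  have h5 : μ (B M) = volume (B M) := by
    rw [hμ, Measure.restrict_apply' measurableSet_Ioo]
    congr 1
    ext x
    simp only [hB, mem_inter_iff, mem_ofPred_eq]
    tauto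
  simp only [Function.comp] at hM
  rw [h5] at hM
  exact hM

/-- The differences are bounded, uniformly for small steps. -/
theorem diff_locally_bounded {J : Set ℝ} (hJ : Admissible J) {f : ℝ → X} (hf : LocInt J f)
    (hd : ∀ a > 0, ∃ C : ℝ, ∀ t ∈ J, ‖diffOp a f t‖ ≤ C) {h : ℝ} (hh : 0 < h) :
    ∃ C : ℝ, ∀ s, 0 < s → s ≤ h → ∀ t ∈ J, ‖f (t + s) - f t‖ ≤ C := by
  by_contra hcon
  push Not at hcon
  have hcon' : ∀ n : ℕ, ∃ s, 0 < s ∧ s ≤ h ∧ ∃ t ∈ J, (n : ℝ) < ‖f (t + s) - f t‖ :=
    fun n => hcon n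
  choose s hs0 hsh t ht hbig using hcon'
  have hε : (0 : ENNReal) < ENNReal.ofReal (h / 3) := by
    rw [ENNReal.ofReal_pos]; positivity
  have h2h : 0 < 2 * h := by positivity
  obtain ⟨M₁, hM₁⟩ := small_bad hJ hf hd t ht h2h hε
  obtain ⟨M₂, hM₂⟩ := small_bad hJ hf hd (fun n => t n + s n)
    (fun n => hJ.add_mem (ht n) (by linarith [hs0 n])) h2h hε
  set B₁ := {x | x ∈ Ioo 0 (2 * h) ∧ ∃ n, (M₁ : ℝ) < ‖f (t n + x) - f (t n)‖} with hB₁
  set B₂ := {x | x ∈ Ioo 0 (2 * h) ∧ ∃ n, (M₂ : ℝ) < ‖f (t n + s n + x) - f (t n + s n)‖}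
    with hB₂
  have key : ∀ n, ∃ x ∈ Ioo h (2 * h), x ∉ B₁ ∧ x - s n ∉ B₂ := by
    intro n
    by_contra hno
    push Not at hno
    have hsub : Ioo h (2 * h) ⊆ B₁ ∪ (fun x => x + -s n) ⁻¹' B₂ := by
      intro x hx
      by_cases hx1 : x ∈ B₁
      · left; exact hx1
      · right
        have := hno x hx hx1
        rw [mem_preimage, ← sub_eq_add_neg]
        exact this
    have h1 := measure_mono (μ := volume) hsub
    have h2 := measure_union_le (μ := volume) B₁ ((fun x => x + -s n) ⁻¹' B₂)
    rw [measure_preimage_add_right] at h2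
    have h3 : volume B₁ + volume B₂ < ENNReal.ofReal (h / 3) + ENNReal.ofReal (h / 3) :=
      ENNReal.add_lt_add hM₁ hM₂
    rw [← ENNReal.ofReal_add (by positivity) (by positivity)] at h3
    have h4 := lt_of_le_of_lt (h1.trans h2) h3
    rw [Real.volume_Ioo, ENNReal.ofReal_lt_ofReal_iff (by positivity)] at h4
    linarith
  obtain ⟨x, hx, hx1, hx2⟩ := key (M₁ + M₂)
  set n := M₁ + M₂ with hn
  have a1 : ‖f (t n + x) - f (t n)‖ ≤ M₁ := by
    by_contra hc
    push Not at hc
    exact hx1 ⟨⟨by linarith [hx.1], hx.2⟩, n, hc⟩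
  have a2 : ‖f (t n + s n + (x - s n)) - f (t n + s n)‖ ≤ M₂ := by
    by_contra hc
    push Not at hc
    exact hx2 ⟨⟨by linarith [hx.1, hsh n], by linarith [hx.2, hs0 n]⟩, n, hc⟩
  rw [show t n + s n + (x - s n) = t n + x by ring] at a2
  have a3 : ‖f (t n + s n) - f (t n)‖ ≤ ‖f (t n + x) - f (t n)‖ +
      ‖f (t n + x) - f (t n + s n)‖ := by
    have : f (t n + s n) - f (t n) = (f (t n + x) - f (t n)) - (f (t n + x) - f (t n + s n)) := by
      abel
    rw [this]
    exact norm_sub_le _ _
  have a4 := hbig n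
  have a5 : (n : ℝ) = (M₁ : ℝ) + M₂ := by rw [hn]; push_cast; ring
  linarith

/-- `BUC` satisfies `(Δ)`. -/
theorem propDelta_BUC [CompleteSpace X] {J : Set ℝ} (hJ : Admissible J) :
    PropDelta J (BUC (X := X) J) := by
  intro f hf hdiff h hh
  obtain ⟨C, hC⟩ := diff_locally_bounded hJ hf (fun a ha => (hdiff a ha).1) hh
  have hint : ∀ t ∈ J, IntervalIntegrable (fun s => f (t + s)) volume 0 h := by
    intro t ht
    have h1 : IntegrableOn f (Icc t (t + h)) volume :=
      hf t (t + h) (by linarith) (fun s hs => hJ.add_mem ht hs.1)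
    have h2 : IntervalIntegrable f volume t (t + h) := by
      rw [intervalIntegrable_iff_integrableOn_Icc_of_le (by linarith)]
      exact h1
    have h3 := h2.comp_add_left t
    simpa using h3
  have hrep : ∀ t ∈ J, (f - meanOp h f) t = -((1 / h) • ∫ s in (0 : ℝ)..h, (f (t + s) - f t)) := by
    intro t ht
    rw [intervalIntegral.integral_sub (hint t ht) intervalIntegrable_const,
      intervalIntegral.integral_const, intervalIntegral.integral_comp_add_left]
    rw [Pi.sub_apply]
    unfold meanOp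
    rw [add_zero, smul_sub, smul_smul, sub_zero, one_div, inv_mul_cancel₀ hh.ne', one_smul]
    abel
  refine ⟨⟨C, fun t ht => ?_⟩, ?_⟩
  · rw [hrep t ht, norm_neg, norm_smul]
    have h1 : ‖∫ s in (0 : ℝ)..h, (f (t + s) - f t)‖ ≤ C * |h - 0| := by
      apply intervalIntegral.norm_integral_le_of_norm_le_const
      intro s hs
      rw [uIoc_of_le hh.le] at hs
      exact hC s hs.1 hs.2 t ht
    rw [sub_zero, abs_of_pos hh] at h1
    rw [Real.norm_eq_abs, abs_of_pos (by positivity)]
    calc 1 / h * ‖∫ s in (0 : ℝ)..h, (f (t + s) - f t)‖ ≤ 1 / h * (C * h) :=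
          mul_le_mul_of_nonneg_left h1 (by positivity)
      _ = C := by field_simp
  · rw [Metric.uniformContinuousOn_iff]
    by_contra hcon
    push Not at hcon
    obtain ⟨ε, hε, hcon⟩ := hcon
    have hcon' : ∀ n : ℕ, ∃ x ∈ J, ∃ y ∈ J, dist x y < 1 / ((n : ℝ) + 1) ∧
        ε ≤ dist ((f - meanOp h f) x) ((f - meanOp h f) y) :=
      fun n => hcon _ (by positivity)
    choose x hx y hy hxy hbig using hcon'
    have hlim : Tendsto (fun n => ∫ s in (0 : ℝ)..h,
        ((f (x n + s) - f (x n)) - (f (y n + s) - f (y n)))) atTop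
        (𝓝 (∫ s in (0 : ℝ)..h, (0 : X))) := by
      apply intervalIntegral.tendsto_integral_filter_of_dominated_convergence (fun _ => C + C)
      · filter_upwards with n
        have h1 : AEStronglyMeasurable (fun s => f (x n + s)) (volume.restrict (uIoc 0 h)) := by
          have := hint (x n) (hx n)
          exact this.def'.aestronglyMeasurable
        have h2 : AEStronglyMeasurable (fun s => f (y n + s)) (volume.restrict (uIoc 0 h)) := by
          have := hint (y n) (hy n)
          exact this.def'.aestronglyMeasurable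
        exact (h1.sub aestronglyMeasurable_const).sub (h2.sub aestronglyMeasurable_const)
      · filter_upwards with n
        filter_upwards with s
        intro hs
        rw [uIoc_of_le hh.le] at hs
        exact (norm_sub_le _ _).trans (add_le_add (hC s hs.1 hs.2 _ (hx n))
          (hC s hs.1 hs.2 _ (hy n)))
      · exact intervalIntegrable_const
      · filter_upwards with s
        intro hs
        rw [uIoc_of_le hh.le] at hs
        have huc := (hdiff s hs.1).2
        rw [Metric.uniformContinuousOn_iff] at huc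
        rw [Metric.tendsto_atTop]
        intro η hη
        obtain ⟨δ, hδ, hδ2⟩ := huc η hη
        obtain ⟨N, hN⟩ := exists_nat_one_div_lt hδ
        refine ⟨N, fun n hn => ?_⟩
        have h3 : dist (x n) (y n) < δ := by
          refine (hxy n).trans_le (le_trans ?_ hN.le)
          apply one_div_le_one_div_of_le (by positivity)
          have : (N : ℝ) ≤ n := by exact_mod_cast hn
          linarith
        have h4 := hδ2 (x n) (hx n) (y n) (hy n) h3
        rw [dist_zero_right]
        rw [dist_eq_norm] at h4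
        exact h4
    rw [intervalIntegral.integral_zero] at hlim
    have hlim2 := (hlim.const_smul (1 / h)).norm
    rw [smul_zero, norm_zero] at hlim2
    have hev := (tendsto_order.1 hlim2).2 ε hε
    obtain ⟨n, hn⟩ := hev.exists
    have h5 := hbig n
    rw [dist_eq_norm, hrep _ (hx n), hrep _ (hy n)] at h5
    have h6 : ∫ s in (0 : ℝ)..h, ((f (x n + s) - f (x n)) - (f (y n + s) - f (y n))) =
        (∫ s in (0 : ℝ)..h, (f (x n + s) - f (x n))) -
        ∫ s in (0 : ℝ)..h, (f (y n + s) - f (y n)) :=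
      intervalIntegral.integral_sub ((hint _ (hx n)).sub intervalIntegrable_const)
        ((hint _ (hy n)).sub intervalIntegrable_const)
    rw [h6, smul_sub] at hn
    have h7 : -((1 / h) • ∫ s in (0 : ℝ)..h, (f (x n + s) - f (x n))) -
        -((1 / h) • ∫ s in (0 : ℝ)..h, (f (y n + s) - f (y n))) =
        -((1 / h) • (∫ s in (0 : ℝ)..h, (f (x n + s) - f (x n))) -
        (1 / h) • ∫ s in (0 : ℝ)..h, (f (y n + s) - f (y n))) := by abel
    rw [h7, norm_neg] at h5
    linarith

theorem BUC_subset_Acos {J : Set ℝ} {f : ℝ → X} (hf : f ∈ BUC (X := X) J) :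
    f ∈ Acos (X := X) J := by
  refine ⟨f, hf, fun _ => 0, ⟨⟨0, fun t _ => by simp⟩,
    uniformContinuous_const.uniformContinuousOn⟩, fun t _ => by simp⟩

/-- `A_cos` satisfies `(Δ)`. -/
theorem propDelta_Acos [CompleteSpace X] {J : Set ℝ} (hJ : Admissible J) :
    PropDelta J (Acos (X := X) J) := by
  intro f hf hdiff h hh
  exact BUC_subset_Acos (propDelta_BUC hJ f hf (diff_mem_BUC hJ hdiff) h hh)

theorem measurableSet_admissible {J : Set ℝ} (hJ : Admissible J) : MeasurableSet J := by
  rcases hJ with ⟨α, rfl⟩ | ⟨α, rfl⟩ | rfl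
  · exact measurableSet_Ici
  · exact measurableSet_Ioi
  · exact MeasurableSet.univ

/-- `A_cos` satisfies `(L_b)`. -/
theorem propLb_Acos [CompleteSpace X] {J : Set ℝ} (hJ : Admissible J) :
    PropLb J (Acos (X := X) J) := by
  intro f hmeas hbdd hdiff
  obtain ⟨C, hC⟩ := hbdd
  have hloc : LocInt J f := by
    intro a b _ hsub
    refine IntegrableOn.of_bound ?_ (hmeas.mono_measure (Measure.restrict_mono hsub le_rfl)) C ?_
    · rw [Real.volume_Icc]; exact ENNReal.ofReal_lt_top
    · filter_upwards [ae_restrict_mem measurableSet_Icc] with t ht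
      exact hC t (hsub ht)
  have h1 := propDelta_BUC hJ f hloc (diff_mem_BUC hJ hdiff) 1 one_pos
  have hint : ∀ s t : ℝ, s ∈ J → t ∈ J → IntervalIntegrable f volume s t := by
    intro s t hs ht
    rcases le_total s t with h | h
    · rw [intervalIntegrable_iff_integrableOn_Icc_of_le h]
      exact hloc s t h (fun x hx => hJ.add_mem hs hx.1)
    · apply IntervalIntegrable.symm
      rw [intervalIntegrable_iff_integrableOn_Icc_of_le h]
      exact hloc t s h (fun x hx => hJ.add_mem ht hx.1)
  have hbound : ∀ s t : ℝ, s ∈ J → t ∈ J → ‖∫ x in s..t, f x‖ ≤ C * |t - s| := by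
    intro s t hs ht
    apply intervalIntegral.norm_integral_le_of_norm_le_const
    intro x hx
    apply hC
    rcases le_total s t with h | h
    · rw [uIoc_of_le h] at hx
      exact hJ.add_mem hs hx.1.le
    · rw [uIoc_of_ge h] at hx
      exact hJ.add_mem ht hx.1.le
  have h2 : meanOp 1 f ∈ BUC (X := X) J := by
    refine ⟨⟨C, fun t ht => ?_⟩, ?_⟩
    · unfold meanOp
      rw [div_one, one_smul]
      have := hbound t (t + 1) ht (hJ.add_mem ht (by linarith))
      simpa using this
    · rw [Metric.uniformContinuousOn_iff]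
      intro ε hε
      refine ⟨ε / (2 * (|C| + 1)), by positivity, fun s hs t ht hst => ?_⟩
      have hs1 : s + 1 ∈ J := hJ.add_mem hs (by linarith)
      have ht1 : t + 1 ∈ J := hJ.add_mem ht (by linarith)
      rw [dist_eq_norm]
      unfold meanOp
      rw [div_one, one_smul, one_smul]
      have e1 : (∫ x in s..(s + 1), f x) - ∫ x in t..(t + 1), f x =
          (∫ x in s..t, f x) - ∫ x in (s + 1)..(t + 1), f x := by
        have i1 := intervalIntegral.integral_add_adjacent_intervals (hint s t hs ht)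
          (hint t (t + 1) ht ht1)
        have i2 := intervalIntegral.integral_add_adjacent_intervals (hint s (s + 1) hs hs1)
          (hint (s + 1) (t + 1) hs1 ht1)
        have i3 : (∫ x in s..t, f x) + ∫ x in t..(t + 1), f x =
            (∫ x in s..(s + 1), f x) + ∫ x in (s + 1)..(t + 1), f x := by rw [i1, i2]
        have i4 : (∫ x in s..t, f x) = (∫ x in s..(s + 1), f x) +
            (∫ x in (s + 1)..(t + 1), f x) - ∫ x in t..(t + 1), f x := by
          rw [← i3]; abel
        rw [i4]; abel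
      rw [e1]
      have b1 := hbound s t hs ht
      have b2 := hbound (s + 1) (t + 1) hs1 ht1
      rw [show t + 1 - (s + 1) = t - s by ring] at b2
      have b3 := norm_sub_le (∫ x in s..t, f x) (∫ x in (s + 1)..(t + 1), f x)
      rw [Real.dist_eq, abs_sub_comm, lt_div_iff₀ (by positivity)] at hst
      have b4 : C * |t - s| ≤ |C| * |t - s| :=
        mul_le_mul_of_nonneg_right (le_abs_self C) (abs_nonneg _)
      have b5 : 0 ≤ |t - s| := abs_nonneg _
      nlinarith
  have h3 : f ∈ BUC (X := X) J := by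
    refine BUC_congr (BUC_add h1 h2) (fun t _ => ?_)
    simp
  exact BUC_subset_Acos h3

end Pool.Agent.H94.CosBUC
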