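import Mathlib

/-!
# The space `BUC(J,X) + cos(t²) BUC(J,X)` and the conditions `(Δ)` and `(L_b)`

Functions in `X^J` are represented by functions `ℝ → X`, of which only the values on `J` matter:
every class below depends only on the restriction to `J`, and for an admissible `J`, `t ∈ J`,
`a > 0`, `h > 0` the points `t + a` and the interval `[t, t + h]` lie in `J`.
-/

namespace Pool.Agent.H94.CosBUC

open MeasureTheory Set

variable {X : Type*} [NormedAddCommGroup X] [NormedSpace ℝ X]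

/-- The admissible intervals: `[α,∞)`, `(α,∞)` and `ℝ`. -/
def Admissible (J : Set ℝ) : Prop :=
  (∃ α, J = Ici α) ∨ (∃ α, J = Ioi α) ∨ J = univ

/-- `L¹_loc(J,X)`: Bochner integrable on every compact subinterval of `J`. -/
def LocInt (J : Set ℝ) (f : ℝ → X) : Prop :=
  ∀ a b : ℝ, a ≤ b → Icc a b ⊆ J → IntegrableOn f (Icc a b) volume

/-- `BUC(J,X)`: bounded uniformly continuous on `J`. -/
def BUC (J : Set ℝ) : Set (ℝ → X) :=
  {u | (∃ C : ℝ, ∀ t ∈ J, ‖u t‖ ≤ C) ∧ UniformContinuousOn u J}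

/-- `A_cos = BUC(J,X) + cos(t²) BUC(J,X)`. -/
def Acos (J : Set ℝ) : Set (ℝ → X) :=
  {f | ∃ u ∈ BUC (X := X) J, ∃ v ∈ BUC (X := X) J, ∀ t ∈ J, f t = u t + Real.cos (t ^ 2) • v t}

/-- `(Δ_a f)(t) = f(t+a) - f(t)`. -/
def diffOp (a : ℝ) (f : ℝ → X) : ℝ → X := fun t => f (t + a) - f t

/-- `(M_h f)(t) = (1/h) ∫_t^{t+h} f(s) ds`. -/
noncomputable def meanOp (h : ℝ) (f : ℝ → X) : ℝ → X :=
  fun t => (1 / h) • ∫ s in t..(t + h), f s

/-- Condition `(Δ)` for a class `A` of functions on `J`. -/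
def PropDelta (J : Set ℝ) (A : Set (ℝ → X)) : Prop :=
  ∀ f : ℝ → X, LocInt J f → (∀ a > 0, diffOp a f ∈ A) → ∀ h > 0, f - meanOp h f ∈ A

/-- The Loomis condition `(L_b)` for a class `A` of functions on `J`: here `f ∈ L^∞(J,X)` means
Bochner measurable on `J` and bounded everywhere on `J`. -/
def PropLb (J : Set ℝ) (A : Set (ℝ → X)) : Prop :=
  ∀ f : ℝ → X, AEStronglyMeasurable f (volume.restrict J) → (∃ C : ℝ, ∀ t ∈ J, ‖f t‖ ≤ C) →
    (∀ a > 0, diffOp a f ∈ A) → f ∈ A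

end Pool.Agent.H94.CosBUC
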